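import Pool.Agent.H77.PM.Targets

set_option autoImplicit false

open Set Filter Topology

namespace Pool.Agent.H61.PM

open Pool.Agent.H77.PM

theorem pf_BAI : T_BAI := by
  intro E hcl hcov
  by_contra hcon
  push Not at hcon
  have hstep : ∀ (n : ℕ) (s : Equiv.Perm ℕ × ℕ), ∃ s' : Equiv.Perm ℕ × ℕ,
      (∀ i < s.2, s'.1 i = s.1 i) ∧ s.2 < s'.2 ∧ s'.1.symm n < s'.2 ∧
      ∀ g : Equiv.Perm ℕ, (∀ i < s'.2, g i = s'.1 i) → g ∉ E n := by
    intro n s
    obtain ⟨g, hg, hgE⟩ := hcon n s.2 s.1
    have h1 : ∃ N, ∀ g' ∈ E n, ¬ ∀ i < N, g' i = g i := by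
      by_contra h2
      push Not at h2
      exact hgE (hcl n g h2)
    obtain ⟨N, hN⟩ := h1
    refine ⟨(g, N + (s.2 + g.symm n + 1)), hg, ?_, ?_, ?_⟩
    · change s.2 < N + (s.2 + g.symm n + 1)
      omega
    · change g.symm n < N + (s.2 + g.symm n + 1)
      omega
    · intro g' hg' hmem
      refine hN g' hmem ?_
      intro i hi
      refine hg' i ?_
      change i < N + (s.2 + g.symm n + 1)
      omega
  choose f hf1 hf2 hf3 hf4 using hstep
  let s : ℕ → Equiv.Perm ℕ × ℕ := fun n => Nat.rec (1, 0) (fun k t => f k t) n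
  have hs : ∀ n, s (n + 1) = f n (s n) := fun n => rfl
  have hm : ∀ n, n ≤ (s n).2 := by
    intro n
    induction n with
    | zero => exact Nat.zero_le _
    | succ n ih =>
      have := hf2 n (s n)
      rw [hs]
      omega
  have hmono : ∀ n k, (s n).2 ≤ (s (n + k)).2 := by
    intro n k
    induction k with
    | zero => exact le_refl _
    | succ k ih =>
      have := hf2 (n + k) (s (n + k))
      rw [← hs] at this
      change _ ≤ (s (n + k + 1)).2
      omega
  have hag : ∀ n k, ∀ i < (s n).2, (s (n + k)).1 i = (s n).1 i := by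
    intro n k
    induction k with
    | zero => intro i _; rfl
    | succ k ih =>
      intro i hi
      rw [← ih i hi]
      change (s (n + k + 1)).1 i = _
      rw [hs]
      exact hf1 _ _ i (lt_of_lt_of_le hi (hmono n k))
  let G : ℕ → ℕ := fun i => (s (i + 1)).1 i
  have hG : ∀ n, ∀ i < (s n).2, G i = (s n).1 i := by
    intro n i hi
    have h1 : i < (s (i + 1)).2 := lt_of_lt_of_le (Nat.lt_succ_self i) (hm (i + 1))
    have h2 := hag (i + 1) n i h1
    have h3 := hag n (i + 1) i hi
    rw [Nat.add_comm n (i + 1)] at h3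
    change (s (i + 1)).1 i = _
    rw [← h2, h3]
  have hinj : Function.Injective G := by
    intro i j hij
    have h1 : i < (s (i + j + 1)).2 := lt_of_lt_of_le (by omega) (hm (i + j + 1))
    have h2 : j < (s (i + j + 1)).2 := lt_of_lt_of_le (by omega) (hm (i + j + 1))
    rw [hG (i + j + 1) i h1, hG (i + j + 1) j h2] at hij
    exact (s (i + j + 1)).1.injective hij
  have hsurj : Function.Surjective G := by
    intro n
    have h1 : (s (n + 1)).1.symm n < (s (n + 1)).2 := by
      rw [hs]
      exact hf3 n (s n)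
    refine ⟨(s (n + 1)).1.symm n, ?_⟩
    rw [hG (n + 1) _ h1]
    exact (s (n + 1)).1.apply_symm_apply n
  obtain ⟨n, hn⟩ := hcov (Equiv.ofBijective G ⟨hinj, hsurj⟩)
  refine hf4 n (s n) _ ?_ hn
  intro i hi
  rw [← hs] at hi ⊢
  exact hG (n + 1) i hi

end Pool.Agent.H61.PM
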